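import Pool.Agent.Helper59.TJ.Pot

set_option autoImplicit false

/-! T-joins made of light edges (deterministic). -/

namespace Pool.Agent.Helper59.TJ

open Pool.Agent.Helper60.TJ
open scoped symmDiff

/-- there is a (possibly infinite) set of light edges with boundary `v` -/
def Gd (K : ℝ) (J : Ed → ℝ) (v : Vx) : Prop :=
  ∃ X : Ed → Bool, (∀ e, X e = true → |J e| ≤ K) ∧ par X = dl v

/-- no heavy edge leaves `R` -/
def Cl (K : ℝ) (J : Ed → ℝ) (R : Finset Vx) : Prop := ∀ e ∈ cc R, |J e| ≤ K

theorem Gd.sum {K : ℝ} {J : Ed → ℝ} (S : Finset Vx) (h : ∀ v ∈ S, Gd K J v) :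
    ∃ X : Ed → Bool, (∀ e, X e = true → |J e| ≤ K) ∧ par X = fun v => decide (v ∈ S) := by
  classical
  induction S using Finset.induction_on with
  | empty =>
    refine ⟨fun _ => false, fun e he => by simp at he, ?_⟩
    funext v
    simp [par]
  | insert a S ha ih =>
    obtain ⟨X, hX1, hX2⟩ := ih fun v hv => h v (Finset.mem_insert_of_mem hv)
    obtain ⟨Y, hY1, hY2⟩ := h a (Finset.mem_insert_self _ _)
    refine ⟨bx Y X, fun e he => ?_, ?_⟩
    · unfold bx at he
      by_cases h1 : X e = true
      · exact hX1 e h1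
      · have h2 : X e = false := by simpa using h1
        rw [h2] at he
        exact hY1 e (by simpa using he)
    · rw [par_bx', hX2, hY2]
      funext v
      unfold vx dl
      by_cases h1 : v = a
      · subst h1; simp [ha]
      · simp [h1]

/-- edges at the vertices of `B` -/
def BE (B : Finset Vx) : Finset Ed := B.biUnion stE

theorem mem_BE {B : Finset Vx} {e : Ed} : e ∈ BE B ↔ pa e ∈ B ∨ pb e ∈ B := by
  unfold BE
  rw [Finset.mem_biUnion]
  constructor
  · rintro ⟨v, hv, he⟩
    rcases mem_stE.1 he with h | h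
    · left; rwa [h]
    · right; rwa [h]
  · rintro (h | h)
    · exact ⟨_, h, mem_stE.2 (Or.inl rfl)⟩
    · exact ⟨_, h, mem_stE.2 (Or.inr rfl)⟩

/-- **light T-joins**: a T-join whose boundary consists of good plaquettes is moved away from the
heavy edges inside small regions which are not left by heavy edges -/
theorem exists_light {K : ℝ} {J : Ed → ℝ} {π₀ : Finset Ed} {S : Finset Vx}
    (hpar : par (ind π₀) = fun v => decide (v ∈ S)) (hS : ∀ v ∈ S, Gd K J v) {M : ℕ}
    {B : Finset Vx}
    (hcl : ∀ e ∈ π₀, ∀ x, x = pa e ∨ x = pb e → ∃ R ⊆ B, x ∈ R ∧ R.card ≤ M ∧ Cl K J R) :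
    ∃ π ⊆ BE B, par (ind π) = par (ind π₀) ∧ (∀ e ∈ π, |J e| ≤ K) ∧
      π.card ≤ (1 + 8 * M) * π₀.card := by
  classical
  set V₀ : Finset Vx := π₀.image pa ∪ π₀.image pb with hV₀
  have hcl' : ∀ x ∈ V₀, ∃ R ⊆ B, x ∈ R ∧ R.card ≤ M ∧ Cl K J R := by
    intro x hx
    rw [hV₀, Finset.mem_union, Finset.mem_image, Finset.mem_image] at hx
    rcases hx with ⟨e, he, h⟩ | ⟨e, he, h⟩
    · exact hcl e he x (Or.inl h.symm)
    · exact hcl e he x (Or.inr h.symm)
  choose! Rx hRB hRx hRM hRC using hcl'
  set R : Finset Vx := V₀.biUnion Rx with hR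
  have hRsub : ∀ x ∈ V₀, Rx x ⊆ R := fun x hx v hv => Finset.mem_biUnion.2 ⟨x, hx, hv⟩
  have hVR : V₀ ⊆ R := fun x hx => hRsub x hx (hRx x hx)
  have hRB' : R ⊆ B := Finset.biUnion_subset.2 hRB
  have hCR : Cl K J R := by
    intro e he
    rw [mem_cc] at he
    by_cases h1 : pa e ∈ R
    · have h2 : pb e ∉ R := fun h2 => he ⟨fun _ => h2, fun _ => h1⟩
      obtain ⟨x, hx, hxe⟩ := Finset.mem_biUnion.1 h1
      refine hRC x hx e (mem_cc.2 fun h3 => h2 (hRsub x hx (h3.1 hxe)))
    · have h2 : pb e ∈ R := by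
        by_contra h2
        exact he ⟨fun h => absurd h h1, fun h => absurd h h2⟩
      obtain ⟨x, hx, hxe⟩ := Finset.mem_biUnion.1 h2
      refine hRC x hx e (mem_cc.2 fun h3 => h1 (hRsub x hx (h3.2 hxe)))
  obtain ⟨Y, hY1, hY2⟩ := Gd.sum S hS
  obtain ⟨s, hs⟩ := exists_cutS (X := bx (ind π₀) Y) fun v => by
    rw [par_bx, hpar, hY2]; simp
  set F : Finset Vx := R.filter fun v => s v = true with hF
  have hFR : F ⊆ R := Finset.filter_subset _ _
  refine ⟨π₀ ∆ cc F, ?_, ?_, ?_, ?_⟩
  · intro e he
    rw [mem_BE]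
    rw [Finset.mem_symmDiff] at he
    rcases he with he | he
    · left
      exact hRB' (hVR (Finset.mem_union_left _ (Finset.mem_image_of_mem _ he.1)))
    · have h1 := mem_cc.1 he.1
      by_cases h2 : pa e ∈ F
      · exact Or.inl (hRB' (hFR h2))
      · right
        by_contra h3
        exact h1 ⟨fun h => absurd h h2, fun h => absurd (hRB' (hFR h)) h3⟩
  · rw [par_ind_symmDiff, (isCyc_iff _).1 (isCyc_cc F)]
    exact vx_false _
  · intro e he
    by_contra hK
    have hYe : Y e = false := by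
      by_contra h
      exact hK (hY1 e (by simpa using h))
    have hse : cutS s e = ind π₀ e := by
      rw [← hs]
      unfold bx
      rw [hYe]
      simp
    by_cases h1 : pa e ∈ R
    · by_cases h2 : pb e ∈ R
      · have h3 : e ∈ cc F ↔ e ∈ π₀ := by
          rw [← ind_eq_true (X := π₀), ← hse, mem_cc, hF, Finset.mem_filter, Finset.mem_filter]
          unfold cutS
          cases s (pa e) <;> cases s (pb e) <;> simp [h1, h2]
        rw [Finset.mem_symmDiff] at he
        tauto
      · exact hK (hCR e (mem_cc.2 fun h => h2 (h.1 h1)))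
    · by_cases h2 : pb e ∈ R
      · exact hK (hCR e (mem_cc.2 fun h => h1 (h.2 h2)))
      · rw [Finset.mem_symmDiff] at he
        rcases he with he | he
        · exact h1 (hVR (Finset.mem_union_left _ (Finset.mem_image_of_mem _ he.1)))
        · have h3 := mem_cc.1 he.1
          exact h3 ⟨fun h => absurd (hFR h) h1, fun h => absurd (hFR h) h2⟩
  · have h1 : (π₀ ∆ cc F).card ≤ π₀.card + (cc F).card := by
      refine (Finset.card_le_card ?_).trans (Finset.card_union_le π₀ (cc F))
      intro e he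
      rw [Finset.mem_symmDiff] at he
      rw [Finset.mem_union]
      tauto
    have h2 : F.card ≤ V₀.card * M :=
      (Finset.card_le_card hFR).trans (Finset.card_biUnion_le.trans
        (by
          refine (Finset.sum_le_card_nsmul _ _ M hRM).trans ?_
          rw [smul_eq_mul]))
    have h3 : V₀.card ≤ 2 * π₀.card := by
      refine (Finset.card_union_le _ _).trans ?_
      have := Finset.card_image_le (s := π₀) (f := pa)
      have := Finset.card_image_le (s := π₀) (f := pb)
      omega
    have h4 := card_cc F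
    have h5 : V₀.card * M ≤ 2 * π₀.card * M := Nat.mul_le_mul_right _ h3
    calc (π₀ ∆ cc F).card ≤ π₀.card + 4 * (2 * π₀.card * M) := by omega
      _ = (1 + 8 * M) * π₀.card := by ring

end Pool.Agent.Helper59.TJ
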