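import Pool.Agent.Helper59.TJ.RecR
import Pool.Agent.Helper66.EAM.RegC

set_option autoImplicit false

/-! Recombination without a moment assumption: the box is replaced by a region which is not left by
any strong coupling. -/

namespace Pool.Agent.Helper59.TJ

open MeasureTheory Filter Topology Pool.Agent.Helper60.TJ
open Pool.H66.EAM (E V PJ Rgn GG)
open scoped symmDiff

/-! ### the region in the conventions of T-joins -/

/-- couplings indexed by the other edge type -/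
def tE (J : Ed → ℝ) : E → ℝ := fun e => J (cE e)

theorem measurable_tE : Measurable tE := measurable_pi_iff.2 fun e => measurable_pi_apply (cE e)

theorem mp_tE (μ : Measure ℝ) [IsProbabilityMeasure μ] : MeasurePreserving tE (PP μ) (PJ μ) := by
  refine ⟨measurable_tE, ?_⟩
  have h := Measure.infinitePi_map_piCongrLeft (X := fun _ : E => ℝ) (fun _ : E => μ) cE.symm
  refine Eq.trans ?_ h
  congr 1
  funext J f
  have h1 : (MeasurableEquiv.piCongrLeft (fun _ : E => ℝ) cE.symm) J (cE.symm (cE f)) =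
      J (cE f) := Equiv.piCongrLeft_apply_apply (fun _ : E => ℝ) cE.symm J (cE f)
  rw [Equiv.symm_apply_apply] at h1
  exact h1.symm

/-- the region as a set of vertices of `ℤ × ℤ` -/
noncomputable def RG (K : ℝ) (B k : ℕ) (J : Ed → ℝ) : Finset Vx := by
  classical exact (Rgn K B k (tE J)).image vV

theorem mem_RG {K : ℝ} {B k : ℕ} {J : Ed → ℝ} {x : V} :
    vV x ∈ RG K B k J ↔ x ∈ Rgn K B k (tE J) := by
  classical
  unfold RG
  rw [Finset.mem_image]
  constructor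
  · rintro ⟨y, hy, hyx⟩
    have := congrArg Ve hyx
    rw [Ve_vV, Ve_vV] at this
    rwa [← this]
  · intro h
    exact ⟨x, h, rfl⟩

theorem cc_RG {K : ℝ} {B k : ℕ} {J : Ed → ℝ} :
    cc (RG K B k J) = (Pool.H66.EAM.cut (Rgn K B k (tE J))).map cE.toEmbedding := by
  ext e
  obtain ⟨e', rfl⟩ := cE.surjective e
  rw [mem_cc, pa_cE, pb_cE, mem_RG, mem_RG, Finset.mem_map]
  constructor
  · intro h
    exact ⟨e', (Pool.H66.EAM.mem_cut _ _).2 h, rfl⟩
  · rintro ⟨e'', h, h2⟩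
    have : e'' = e' := cE.injective h2
    subst this
    exact (Pool.H66.EAM.mem_cut _ _).1 h

theorem tw_cc_RG {K : ℝ} {B k : ℕ} {J : Ed → ℝ} : tw (wt J) (cc (RG K B k J)) =
    ∑ e ∈ Pool.H66.EAM.cut (Rgn K B k (tE J)), |tE J e| := by
  rw [cc_RG]
  unfold tw
  rw [Finset.sum_map]
  rfl

theorem box_sub_RG {K : ℝ} {B k : ℕ} {J : Ed → ℝ} : box B ⊆ RG K B k J := by
  intro v hv
  rw [← vV_Ve v, mem_RG]
  apply Pool.H66.EAM.box_subset_Rgn
  rw [Pool.H66.EAM.mem_box]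
  rw [E2.mem_box] at hv
  intro j
  fin_cases j
  · exact hv.1
  · exact hv.2

/-! ### counting in a region -/

/-- the main estimate for one point, in a region which contains a box -/
theorem count_leR {w : Ed → ℝ} (hw : ∀ e, 0 ≤ w e) {T : Vx → Bool} {U U' : Ed → Bool}
    (hU : U ∈ GS w T) (hU' : U' ∈ GS w T) {C : Finset Ed} (hC : IsCyc C) {r : ℕ}
    (hr : ∀ e ∈ C, e.1 ∈ box r) {ε : ℝ} (hε : 0 ≤ ε) (N : ℕ) (Z : Finset Vx)
    (hZ : Z ⊆ (box N).image (E2.scl (2 * r + 1)))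
    (hbad : ∀ z ∈ Z, ∃ A, Sat (bx U U') A ∧ en w (bx U A) (shF (-z) C) ≤ -ε)
    {R : Finset Vx} (hR : box ((2 * r + 1) * N + r + 1) ⊆ R) :
    ε * Z.card ≤ 2 ^ (C.card + 1) * tw w (cc R) := by
  classical
  choose! A hA using hbad
  have hzb : ∀ z ∈ Z, ∃ u ∈ box N, E2.scl (2 * r + 1) u = z := fun z hz => by
    have := hZ hz
    rw [Finset.mem_image] at this
    exact this
  refine recombR hw hU hU' hε Z (fun z => shF (-z) C) A ?_ ?_ (fun z hz => (hA z hz).1)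
    (fun z hz => (hA z hz).2)
  · intro z hz
    refine ⟨?_, (E2.card_shF _ _).le, isCyc_shF.2 hC⟩
    obtain ⟨u, hu, rfl⟩ := hzb z hz
    rw [E2.mem_box] at hu
    intro e he
    rw [E2.mem_shF_neg] at he
    have h1 := hr _ he
    rw [E2.mem_box] at h1
    simp only [E2.scl, Prod.fst_sub, Prod.snd_sub] at h1
    obtain ⟨⟨a1, a2⟩, b1, b2⟩ := h1
    obtain ⟨⟨c1, c2⟩, d1, d2⟩ := hu
    push_cast at a1 a2 b1 b2
    have e1 : (2 * (r : ℤ) + 1) * u.1 ≤ (2 * (r : ℤ) + 1) * N :=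
      mul_le_mul_of_nonneg_left c2 (by positivity)
    have e2 : (2 * (r : ℤ) + 1) * (-(N : ℤ)) ≤ (2 * (r : ℤ) + 1) * u.1 :=
      mul_le_mul_of_nonneg_left c1 (by positivity)
    have e3 : (2 * (r : ℤ) + 1) * u.2 ≤ (2 * (r : ℤ) + 1) * N :=
      mul_le_mul_of_nonneg_left d2 (by positivity)
    have e4 : (2 * (r : ℤ) + 1) * (-(N : ℤ)) ≤ (2 * (r : ℤ) + 1) * u.2 :=
      mul_le_mul_of_nonneg_left d1 (by positivity)
    refine ⟨hR ?_, hR ?_⟩
    · rw [E2.mem_box]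
      unfold pa
      push_cast
      exact ⟨⟨by linarith, by linarith⟩, by linarith, by linarith⟩
    · rw [E2.mem_box]
      unfold pb
      push_cast
      split_ifs
      · simp only
        exact ⟨⟨by linarith, by linarith⟩, by linarith, by linarith⟩
      · simp only
        exact ⟨⟨by linarith, by linarith⟩, by linarith, by linarith⟩
  · intro z hz z' hz' hne
    obtain ⟨u, hu, rfl⟩ := hzb z hz
    obtain ⟨u', hu', rfl⟩ := hzb z' hz'
    rw [Finset.disjoint_left]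
    intro e he he'
    rw [E2.mem_shF_neg] at he he'
    have h1 := hr _ he
    have h2 := hr _ he'
    rw [E2.mem_box] at h1 h2
    simp only [E2.scl, Prod.fst_sub, Prod.snd_sub] at h1 h2
    obtain ⟨⟨a1, a2⟩, b1, b2⟩ := h1
    obtain ⟨⟨c1, c2⟩, d1, d2⟩ := h2
    push_cast at a1 a2 b1 b2 c1 c2 d1 d2
    apply hne
    have key : ∀ x y : ℤ, -(2 * (r : ℤ)) ≤ (2 * (r : ℤ) + 1) * x - (2 * (r : ℤ) + 1) * y →
        (2 * (r : ℤ) + 1) * x - (2 * (r : ℤ) + 1) * y ≤ 2 * (r : ℤ) → x = y := by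
      intro x y h1 h2
      have h3 : (2 * (r : ℤ) + 1) * (x - y) ≤ 2 * (r : ℤ) := by linarith
      have h4 : -(2 * (r : ℤ)) ≤ (2 * (r : ℤ) + 1) * (x - y) := by linarith
      by_contra hxy
      rcases lt_or_gt_of_ne hxy with h | h
      · have h5 : x - y ≤ -1 := by omega
        nlinarith
      · have h5 : 1 ≤ x - y := by omega
        nlinarith
    have h3 : u.1 = u'.1 := key _ _ (by linarith) (by linarith)
    have h4 : u.2 = u'.2 := key _ _ (by linarith) (by linarith)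
    unfold E2.scl
    rw [h3, h4]

/-! ### the measure part -/

section

variable {μ : Measure ℝ} [IsProbabilityMeasure μ] {k : ENNReal} {Q : Measure XX}

theorem lint_fst (hfst : ∀ R : Set (Ed → ℝ), Q (Prod.fst ⁻¹' R) ≤ k * PP μ R)
    {f : (Ed → ℝ) → ENNReal} (hf : Measurable f) {S : Set (Ed → ℝ)} (hS : MeasurableSet S) :
    ∫⁻ p in Prod.fst ⁻¹' S, f p.1 ∂Q ≤ k * ∫⁻ J in S, f J ∂(PP μ) := by
  have h1 : Q.map Prod.fst ≤ k • PP μ := by
    refine Measure.le_iff.2 fun s hs => ?_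
    rw [Measure.map_apply measurable_fst hs, Measure.smul_apply, smul_eq_mul]
    exact hfst s
  calc ∫⁻ p in Prod.fst ⁻¹' S, f p.1 ∂Q
      = ∫⁻ J in S, f J ∂(Q.map Prod.fst) := (setLIntegral_map hS hf measurable_fst).symm
    _ ≤ ∫⁻ J in S, f J ∂(k • PP μ) := lintegral_mono' (Measure.restrict_mono_measure h1 S) le_rfl
    _ = k * ∫⁻ J in S, f J ∂(PP μ) := by
        rw [Measure.restrict_smul, lintegral_smul_measure, smul_eq_mul]

theorem bad_le {K : ℝ} (hK : 0 ≤ K) (hp : μ {x | K < |x|} ≤ ENNReal.ofReal (1 / 16))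
    (hfst : ∀ R : Set (Ed → ℝ), Q (Prod.fst ⁻¹' R) ≤ k * PP μ R)
    (hinv : ∀ u : Vx, MeasurePreserving (shX u) Q Q)
    (hgs : ∀ᵐ p ∂Q, p.2.1 ∈ GS (wt p.1) (par p.2.1) ∧ p.2.2 ∈ GS (wt p.1) (par p.2.1))
    {C : Finset Ed} (hC : IsCyc C) {r : ℕ} (hr : ∀ e ∈ C, e.1 ∈ box r) {ε : ℝ} (hε : 0 < ε)
    (n : ℕ) :
    ENNReal.ofReal ε * (((2 * n + 1) ^ 2 : ℕ) * Q (E2.Bad C ε)) ≤
      2 ^ (C.card + 1) * (k * ENNReal.ofReal (64 * K * ((2 * r + 1) * n + r + 1 : ℕ))) +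
      ENNReal.ofReal ε * (((2 * n + 1) ^ 2 : ℕ) *
        (k * ENNReal.ofReal (8 * ((2 * r + 1) * n + r + 1 : ℕ) *
          (1 / 4) ^ ((2 * r + 1) * n + r + 1 + 1)))) := by
  classical
  set L : ℕ := (2 * r + 1) * n + r + 1 with hL
  have hL1 : 1 ≤ L := by omega
  set Z : Finset Vx := (box n).image (E2.scl (2 * r + 1)) with hZ
  have hZc : Z.card = (2 * n + 1) ^ 2 := by
    rw [hZ, Finset.card_image_of_injective _ (E2.scl_inj (by omega)), E2.card_box_E2]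
  set S : Set (Ed → ℝ) := tE ⁻¹' (GG K L L) with hS
  have hSm : MeasurableSet S := measurable_tE Pool.H66.EAM.meas_GG
  have hS1 : PP μ Sᶜ ≤ ENNReal.ofReal (8 * (L : ℕ) * (1 / 4) ^ (L + 1)) := by
    have h1 : PP μ Sᶜ = PJ μ (GG K L L)ᶜ := by
      rw [hS, ← Set.preimage_compl]
      exact (mp_tE μ).measure_preimage Pool.H66.EAM.meas_GG.compl.nullMeasurableSet
    rw [h1, ← ofReal_measureReal (measure_ne_top _ _)]
    exact ENNReal.ofReal_le_ofReal (Pool.H66.EAM.prob_GG hL1 hp)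
  set f : (Ed → ℝ) → ENNReal := fun J => ENNReal.ofReal (tw (wt J) (cc (RG K L L J))) with hf
  have hfe : f = fun J => (fun J' : E → ℝ => ENNReal.ofReal
      (∑ e ∈ Pool.H66.EAM.cut (Rgn K L L J'), |J' e|)) (tE J) := by
    funext J
    rw [hf]
    simp only
    rw [tw_cc_RG]
  have hfm : Measurable f := by
    rw [hfe]
    exact (Pool.H66.EAM.meas_cost.ennreal_ofReal).comp measurable_tE
  have hfi : ∫⁻ J in S, f J ∂(PP μ) ≤ ENNReal.ofReal (64 * K * (L : ℕ)) := by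
    rw [hfe, hS]
    rw [(mp_tE μ).setLIntegral_comp_preimage Pool.H66.EAM.meas_GG
      Pool.H66.EAM.meas_cost.ennreal_ofReal]
    exact Pool.H66.EAM.cost_le hK hL1 hp
  have hmeas : ∀ z : Vx, MeasurableSet (E2.Bad (shF (-z) C) ε) := fun z => E2.measurableSet_Bad _ _
  have hQz : ∀ z : Vx, Q (E2.Bad (shF (-z) C) ε) = Q (E2.Bad C ε) := by
    intro z
    rw [← E2.bad_sh]
    exact (hinv z).measure_preimage (E2.measurableSet_Bad C ε).nullMeasurableSet
  have hSp : MeasurableSet (Prod.fst ⁻¹' S : Set XX) := measurable_fst hSm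
  -- pointwise estimate
  have hpt : ∀ᵐ p ∂(Q.restrict (Prod.fst ⁻¹' S)),
      ENNReal.ofReal ε * ∑ z ∈ Z, (E2.Bad (shF (-z) C) ε).indicator 1 p
      ≤ 2 ^ (C.card + 1) * f p.1 := by
    refine ae_restrict_of_ae ?_
    filter_upwards [hgs] with p hp
    obtain ⟨hU, hU'⟩ := hp
    have h1 : ∑ z ∈ Z, (E2.Bad (shF (-z) C) ε).indicator (1 : XX → ENNReal) p
        = ((Z.filter fun z => p ∈ E2.Bad (shF (-z) C) ε).card : ENNReal) := by
      rw [Finset.card_filter]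
      push_cast
      refine Finset.sum_congr rfl fun z _ => ?_
      by_cases h : p ∈ E2.Bad (shF (-z) C) ε
      · rw [Set.indicator_of_mem h, if_pos h]; rfl
      · rw [Set.indicator_of_notMem h, if_neg h]
    rw [h1]
    have h2 := count_leR (w := wt p.1) (wt_nonneg p.1) hU hU' hC hr hε.le n
      (Z.filter fun z => p ∈ E2.Bad (shF (-z) C) ε) (Finset.filter_subset _ _)
      (fun z hz => (Finset.mem_filter.1 hz).2) (R := RG K L L p.1) box_sub_RG
    have h3 : ENNReal.ofReal ε * ((Z.filter fun z => p ∈ E2.Bad (shF (-z) C) ε).card : ENNReal)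
        = ENNReal.ofReal (ε * (Z.filter fun z => p ∈ E2.Bad (shF (-z) C) ε).card) := by
      rw [ENNReal.ofReal_mul hε.le, ENNReal.ofReal_natCast]
    rw [h3]
    refine (ENNReal.ofReal_le_ofReal h2).trans (le_of_eq ?_)
    rw [ENNReal.ofReal_mul (by positivity)]
    congr 1
    rw [ENNReal.ofReal_pow (by norm_num)]
    congr 1
    simp
  have hint2 := lintegral_mono_ae hpt
  have hlhs : ∫⁻ p in Prod.fst ⁻¹' S, ENNReal.ofReal ε *
      ∑ z ∈ Z, (E2.Bad (shF (-z) C) ε).indicator 1 p ∂Q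
      = ENNReal.ofReal ε * ∑ z ∈ Z, Q (E2.Bad (shF (-z) C) ε ∩ Prod.fst ⁻¹' S) := by
    rw [lintegral_const_mul]
    · congr 1
      rw [lintegral_finsetSum]
      · refine Finset.sum_congr rfl fun z _ => ?_
        rw [lintegral_indicator_one (hmeas z), Measure.restrict_apply (hmeas z)]
      · intro z _
        exact measurable_one.indicator (hmeas z)
    · exact Finset.measurable_sum _ fun z _ => measurable_one.indicator (hmeas z)
  have hrhs : ∫⁻ p in Prod.fst ⁻¹' S, 2 ^ (C.card + 1) * f p.1 ∂Q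
      ≤ 2 ^ (C.card + 1) * (k * ENNReal.ofReal (64 * K * (L : ℕ))) := by
    have hfm2 : Measurable fun p : XX => f p.1 := hfm.comp measurable_fst
    calc ∫⁻ p in Prod.fst ⁻¹' S, 2 ^ (C.card + 1) * f p.1 ∂Q
        = 2 ^ (C.card + 1) * ∫⁻ p in Prod.fst ⁻¹' S, f p.1 ∂Q := lintegral_const_mul _ hfm2
      _ ≤ 2 ^ (C.card + 1) * (k * ∫⁻ J in S, f J ∂(PP μ)) := by
          gcongr
          exact lint_fst hfst hfm hSm
      _ ≤ _ := by gcongr
  rw [hlhs] at hint2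
  have h4 := hint2.trans hrhs
  have h5 : ((2 * n + 1) ^ 2 : ℕ) * Q (E2.Bad C ε) ≤
      ∑ z ∈ Z, Q (E2.Bad (shF (-z) C) ε ∩ Prod.fst ⁻¹' S) + ((2 * n + 1) ^ 2 : ℕ) *
        (k * ENNReal.ofReal (8 * (L : ℕ) * (1 / 4) ^ (L + 1))) := by
    calc ((2 * n + 1) ^ 2 : ℕ) * Q (E2.Bad C ε)
        = ∑ z ∈ Z, Q (E2.Bad (shF (-z) C) ε) := by
          rw [Finset.sum_congr rfl fun z _ => hQz z, Finset.sum_const, hZc, nsmul_eq_mul]
      _ ≤ ∑ z ∈ Z, (Q (E2.Bad (shF (-z) C) ε ∩ Prod.fst ⁻¹' S) +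
            k * ENNReal.ofReal (8 * (L : ℕ) * (1 / 4) ^ (L + 1))) := by
          refine Finset.sum_le_sum fun z _ => ?_
          refine (measure_le_inter_add_sdiff Q _ (Prod.fst ⁻¹' S)).trans ?_
          gcongr
          calc Q (E2.Bad (shF (-z) C) ε \ Prod.fst ⁻¹' S) ≤ Q (Prod.fst ⁻¹' Sᶜ) :=
                measure_mono fun p hp => hp.2
            _ ≤ k * PP μ Sᶜ := hfst _
            _ ≤ _ := by gcongr
      _ = _ := by
          rw [Finset.sum_add_distrib, Finset.sum_const, hZc, nsmul_eq_mul]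
  calc ENNReal.ofReal ε * (((2 * n + 1) ^ 2 : ℕ) * Q (E2.Bad C ε))
      ≤ ENNReal.ofReal ε * (∑ z ∈ Z, Q (E2.Bad (shF (-z) C) ε ∩ Prod.fst ⁻¹' S) +
        ((2 * n + 1) ^ 2 : ℕ) * (k * ENNReal.ofReal (8 * (L : ℕ) * (1 / 4) ^ (L + 1)))) := by
        gcongr
    _ = ENNReal.ofReal ε * ∑ z ∈ Z, Q (E2.Bad (shF (-z) C) ε ∩ Prod.fst ⁻¹' S) +
        ENNReal.ofReal ε * (((2 * n + 1) ^ 2 : ℕ) *
          (k * ENNReal.ofReal (8 * (L : ℕ) * (1 / 4) ^ (L + 1)))) := by rw [mul_add]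
    _ ≤ _ := by gcongr

theorem bad_null (hk : k ≠ ⊤) (hfst : ∀ R : Set (Ed → ℝ), Q (Prod.fst ⁻¹' R) ≤ k * PP μ R)
    (hinv : ∀ u : Vx, MeasurePreserving (shX u) Q Q)
    (hgs : ∀ᵐ p ∂Q, p.2.1 ∈ GS (wt p.1) (par p.2.1) ∧ p.2.2 ∈ GS (wt p.1) (par p.2.1))
    {C : Finset Ed} (hC : IsCyc C) {ε : ℝ} (hε : 0 < ε) : Q (E2.Bad C ε) = 0 := by
  obtain ⟨r, hr⟩ := E2.exists_box C
  obtain ⟨K, hK, -, hp⟩ := Pool.H66.EAM.exists_threshold μ 0
  have hfin : Q Set.univ ≠ ⊤ := by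
    have h := hfst Set.univ
    rw [Set.preimage_univ] at h
    exact ne_top_of_le_ne_top (ENNReal.mul_ne_top hk (measure_ne_top _ _)) h
  have hBf : Q (E2.Bad C ε) ≠ ⊤ := ne_top_of_le_ne_top hfin (measure_mono (Set.subset_univ _))
  set q : ℝ := (Q (E2.Bad C ε)).toReal with hq
  have hq0 : 0 ≤ q := ENNReal.toReal_nonneg
  have hqe : Q (E2.Bad C ε) = ENNReal.ofReal q := (ENNReal.ofReal_toReal hBf).symm
  set κ : ℝ := k.toReal with hκ
  have hκ0 : 0 ≤ κ := ENNReal.toReal_nonneg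
  have hke : k = ENNReal.ofReal κ := (ENNReal.ofReal_toReal hk).symm
  set D : ℝ := 2 ^ (C.card + 1) * (κ * (64 * K * (r + 1))) with hD
  have hD0 : 0 ≤ D := by positivity
  have key : ∀ n : ℕ, ε * q ≤ D / (2 * n + 1) + ε * (κ * (2 * (1 / 2) ^ n)) := by
    intro n
    have h := bad_le hK hp hfst hinv hgs hC hr hε n
    set L : ℕ := (2 * r + 1) * n + r + 1 with hL
    rw [hqe, hke] at h
    have h2 : (((2 * n + 1) ^ 2 : ℕ) : ENNReal) = ENNReal.ofReal ((2 * n + 1) ^ 2) := by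
      rw [← ENNReal.ofReal_natCast]
      push_cast
      rfl
    have h3 : (2 : ENNReal) ^ (C.card + 1) = ENNReal.ofReal (2 ^ (C.card + 1)) := by
      rw [ENNReal.ofReal_pow (by norm_num)]
      norm_num
    rw [h2, h3, ← ENNReal.ofReal_mul (by positivity), ← ENNReal.ofReal_mul hε.le,
      ← ENNReal.ofReal_mul hκ0, ← ENNReal.ofReal_mul (by positivity),
      ← ENNReal.ofReal_mul hκ0, ← ENNReal.ofReal_mul (by positivity),
      ← ENNReal.ofReal_mul hε.le, ← ENNReal.ofReal_add (by positivity) (by positivity),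
      ENNReal.ofReal_le_ofReal_iff (by positivity)] at h
    have hLr : (L : ℝ) ≤ (r + 1) * (2 * n + 1) := by
      rw [hL]; push_cast
      have : (0 : ℝ) ≤ n := Nat.cast_nonneg n
      nlinarith
    have hn : (0 : ℝ) < 2 * n + 1 := by positivity
    have hnL : n ≤ L := by rw [hL]; nlinarith
    have h4 : 8 * (L : ℝ) * (1 / 4) ^ (L + 1) ≤ 2 * (1 / 2) ^ n := by
      have h5 : (L : ℝ) ≤ 2 ^ L := by
        exact_mod_cast (Nat.lt_two_pow_self (n := L)).le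
      have h6 : ((1 : ℝ) / 4) ^ (L + 1) = (1 / 2) ^ L * (1 / 2) ^ L * (1 / 4) := by
        rw [pow_succ, ← mul_pow]; norm_num
      have h7 : (2 : ℝ) ^ L * (1 / 2) ^ L = 1 := by
        rw [← mul_pow]; norm_num
      have h8 : ((1 : ℝ) / 2) ^ L ≤ (1 / 2) ^ n := pow_le_pow_of_le_one (by norm_num) (by norm_num) hnL
      rw [h6]
      have h9 : 0 ≤ ((1 : ℝ) / 2) ^ L := by positivity
      calc 8 * (L : ℝ) * ((1 / 2) ^ L * (1 / 2) ^ L * (1 / 4))
          = 2 * ((L : ℝ) * (1 / 2) ^ L) * (1 / 2) ^ L := by ring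
        _ ≤ 2 * (2 ^ L * (1 / 2) ^ L) * (1 / 2) ^ L := by gcongr
        _ = 2 * (1 / 2) ^ L := by rw [h7]; ring
        _ ≤ _ := by gcongr
    have h5 : ε * ((2 * n + 1) ^ 2 * q) ≤ 2 ^ (C.card + 1) * (κ * (64 * K * ((r + 1) * (2 * n + 1))))
        + ε * ((2 * n + 1) ^ 2 * (κ * (2 * (1 / 2) ^ n))) := by
      refine h.trans ?_
      gcongr
    have h6 : (ε * q) * (2 * n + 1) ^ 2 ≤
        (D / (2 * n + 1) + ε * (κ * (2 * (1 / 2) ^ n))) * (2 * n + 1) ^ 2 := by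
      have h7 : D / (2 * n + 1) * (2 * (n : ℝ) + 1) ^ 2 = D * (2 * n + 1) := by
        field_simp
      rw [add_mul, h7, hD]
      linarith
    exact le_of_mul_le_mul_right h6 (by positivity)
  have hlim : Tendsto (fun n : ℕ => D / (2 * n + 1) + ε * (κ * (2 * (1 / 2) ^ n))) atTop (𝓝 0) := by
    have h1 : Tendsto (fun n : ℕ => D / (2 * (n : ℝ) + 1)) atTop (𝓝 0) := by
      refine Tendsto.div_atTop tendsto_const_nhds ?_
      refine tendsto_atTop_add_const_right _ _ ?_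
      exact tendsto_natCast_atTop_atTop.const_mul_atTop (by norm_num)
    have h2 := (((tendsto_pow_atTop_nhds_zero_of_lt_one (by norm_num : (0 : ℝ) ≤ 1 / 2)
      (by norm_num)).const_mul 2).const_mul κ).const_mul ε
    simp only [mul_zero] at h2
    have h3 := h1.add h2
    rw [add_zero] at h3
    exact h3
  have h0 : ε * q ≤ 0 := ge_of_tendsto' hlim key
  have hq1 : q ≤ 0 := by
    by_contra h
    have := mul_pos hε (not_le.1 h)
    linarith
  rw [hqe, le_antisymm hq1 hq0, ENNReal.ofReal_zero]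

/-- **recombination along the walls**, for every law of the couplings -/
theorem recomb_gs (hk : k ≠ ⊤) (hfst : ∀ R : Set (Ed → ℝ), Q (Prod.fst ⁻¹' R) ≤ k * PP μ R)
    (hinv : ∀ u : Vx, MeasurePreserving (shX u) Q Q)
    (hgs : ∀ᵐ p ∂Q, p.2.1 ∈ GS (wt p.1) (par p.2.1) ∧ p.2.2 ∈ GS (wt p.1) (par p.2.1)) :
    ∀ᵐ p ∂Q, ∀ A : Ed → Bool, Sat (wl p) A → bx p.2.1 A ∈ GS (wt p.1) (par p.2.1) := by
  have h1 : ∀ᵐ p ∂Q, ∀ C : Finset Ed, ∀ n : ℕ, IsCyc C → p ∉ E2.Bad C (1 / ((n : ℝ) + 1)) := by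
    rw [ae_all_iff]
    intro C
    rw [ae_all_iff]
    intro n
    by_cases hC : IsCyc C
    · have h := bad_null hk hfst hinv hgs hC (ε := 1 / ((n : ℝ) + 1)) (by positivity)
      have h2 : ∀ᵐ p ∂Q, p ∉ E2.Bad C (1 / ((n : ℝ) + 1)) := measure_eq_zero_iff_ae_notMem.1 h
      filter_upwards [h2] with p hp _ using hp
    · exact Filter.Eventually.of_forall fun p h => absurd h hC
  filter_upwards [h1, hgs] with p hp hnice A hA
  obtain ⟨hU, hU'⟩ := hnice
  refine ⟨fun v => ?_, fun C hC => ?_⟩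
  · rw [par_bx, hU.1 v, E2.Sat.par_false hA (par_wall hU hU') v]
    simp
  · by_contra hneg
    rw [not_le] at hneg
    obtain ⟨n, hn⟩ := exists_nat_one_div_lt (neg_pos.2 hneg)
    exact hp C n hC ⟨A, hA, by linarith⟩

/-- recombination for pairs of locally minimal T-joins of the couplings -/
theorem recomb_gj (hk : k ≠ ⊤) (hfst : ∀ R : Set (Ed → ℝ), Q (Prod.fst ⁻¹' R) ≤ k * PP μ R)
    (hinv : ∀ u : Vx, MeasurePreserving (shX u) Q Q)
    (hgs : ∀ᵐ p ∂Q, p.2.1 ∈ GJ p.1 ∧ p.2.2 ∈ GJ p.1) :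
    ∀ᵐ p ∂Q, ∀ A : Ed → Bool, Sat (wl p) A → bx p.2.1 A ∈ GJ p.1 := by
  have h1 : ∀ᵐ p ∂Q, p.2.1 ∈ GS (wt p.1) (par p.2.1) ∧ p.2.2 ∈ GS (wt p.1) (par p.2.1) := by
    filter_upwards [hgs] with p hp
    have h2 : par p.2.1 = fr p.1 := funext fun v => hp.1.1 v
    rw [h2]
    exact hp
  filter_upwards [hgs, recomb_gs hk hfst hinv h1] with p hp hrec A hA
  have h2 : par p.2.1 = fr p.1 := funext fun v => hp.1.1 v
  have h3 := hrec A hA
  rw [h2] at h3
  exact h3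

/-- recombination for the counting measures -/
theorem recomb_q {k : ℕ} {Q : Measure XX} (hQ : IsQ μ k Q) :
    ∀ᵐ p ∂Q, ∀ A : Ed → Bool, Sat (wl p) A → bx p.2.1 A ∈ GJ p.1 :=
  recomb_gj (k := ((k * k : ℕ) : ENNReal)) (ENNReal.natCast_ne_top _) hQ.fst_le hQ.inv
    (hQ.nice.mono fun _ hp => ⟨hp.2.1, hp.2.2.1⟩)

end

end Pool.Agent.Helper59.TJ
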