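import Pool.Agent.Helper59.TJ.Lgt
import Pool.Agent.Helper59.TJ.RecM

set_option autoImplicit false

/-! Heavy clusters are small, and light chains start at most plaquettes. -/

namespace Pool.Agent.Helper59.TJ

open MeasureTheory Filter Topology Pool.Agent.Helper60.TJ
open Pool.H66.EAM (E V PJ Rgn GG)
open scoped symmDiff ENNReal

/-! ### regions around a vertex -/

/-- the region around `x` is not left by a heavy edge -/
def GE (K : ℝ) (k : ℕ) (x : Vx) : Set (Ed → ℝ) := {J | tE (sh x J) ∈ GG K 1 k}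

theorem measurableSet_GE (K : ℝ) (k : ℕ) (x : Vx) : MeasurableSet (GE K k x) :=
  (measurable_tE.comp (measurable_sh x)) Pool.H66.EAM.meas_GG

/-- the region around `x` -/
noncomputable def RS (K : ℝ) (k : ℕ) (x : Vx) (J : Ed → ℝ) : Finset Vx := by
  classical exact (RG K 1 k (sh x J)).image fun v => v + x

theorem mem_RS {K : ℝ} {k : ℕ} {x : Vx} {J : Ed → ℝ} {v : Vx} :
    v ∈ RS K k x J ↔ v - x ∈ RG K 1 k (sh x J) := by
  classical
  unfold RS
  rw [Finset.mem_image]
  constructor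
  · rintro ⟨u, hu, rfl⟩
    rwa [add_sub_cancel_right]
  · intro h
    exact ⟨v - x, h, sub_add_cancel _ _⟩

theorem RG_sub_box {K : ℝ} {B k : ℕ} {J : Ed → ℝ} : RG K B k J ⊆ box (B + k) := by
  classical
  intro v hv
  rw [← vV_Ve v, mem_RG] at hv
  have h := Pool.H66.EAM.mem_box.1 (Pool.H66.EAM.Rgn_subset_box _ hv)
  rw [E2.mem_box]
  exact ⟨h 0, h 1⟩

theorem RS_sub {K : ℝ} {k : ℕ} {x : Vx} {J : Ed → ℝ} {v : Vx} (h : v ∈ RS K k x J) :
    v - x ∈ box (1 + k) := RG_sub_box (mem_RS.1 h)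

theorem card_RS {K : ℝ} {k : ℕ} {x : Vx} {J : Ed → ℝ} :
    (RS K k x J).card ≤ (2 * (1 + k) + 1) ^ 2 := by
  classical
  unfold RS
  refine Finset.card_image_le.trans ((Finset.card_le_card RG_sub_box).trans ?_)
  rw [E2.card_box_E2]

theorem self_mem_RS {K : ℝ} {k : ℕ} {x : Vx} {J : Ed → ℝ} : x ∈ RS K k x J := by
  rw [mem_RS, sub_self]
  apply box_sub_RG
  rw [E2.mem_box]
  simp

theorem cl_RS {K : ℝ} {k : ℕ} {x : Vx} {J : Ed → ℝ} (h : J ∈ GE K k x) :
    Cl K J (RS K k x J) := by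
  intro e he
  have h1 : ((e.1 - x, e.2) : Ed) ∈ cc (RG K 1 k (sh x J)) := by
    rw [mem_cc] at he ⊢
    rw [mem_RS, mem_RS] at he
    have e1 : pa ((e.1 - x, e.2) : Ed) = pa e - x := rfl
    have e2 : pb ((e.1 - x, e.2) : Ed) = pb e - x := by
      unfold pb
      split_ifs
      · refine Prod.ext rfl ?_
        simp only [Prod.snd_sub]
        ring
      · refine Prod.ext ?_ rfl
        simp only [Prod.fst_sub]
        ring
    rw [e1, e2]
    exact he
  rw [cc_RG, Finset.mem_map] at h1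
  obtain ⟨e', he', h2⟩ := h1
  have h3 : |tE (sh x J) e'| ≤ K := h e' he'
  have h4 : tE (sh x J) e' = J e := by
    have h5 : cE e' = ((e.1 - x, e.2) : Ed) := h2
    show sh x J (cE e') = J e
    rw [h5]
    unfold sh
    simp
  rwa [h4] at h3

section

variable {μ : Measure ℝ} [IsProbabilityMeasure μ]

theorem prob_GE {K : ℝ} (hp : μ {x | K < |x|} ≤ ENNReal.ofReal (1 / 16)) (k : ℕ) (x : Vx) :
    PP μ (GE K k x)ᶜ ≤ ENNReal.ofReal (8 * (1 / 4) ^ (k + 1)) := by
  have h1 : MeasurePreserving (fun J : Ed → ℝ => tE (sh x J)) (PP μ) (PJ μ) :=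
    (mp_tE μ).comp (mp_sh μ x)
  have h2 : (GE K k x)ᶜ = (fun J : Ed → ℝ => tE (sh x J)) ⁻¹' (GG K 1 k)ᶜ := rfl
  rw [h2, h1.measure_preimage Pool.H66.EAM.meas_GG.compl.nullMeasurableSet,
    ← ofReal_measureReal (measure_ne_top _ _)]
  refine ENNReal.ofReal_le_ofReal ?_
  have := Pool.H66.EAM.prob_GG (μ := μ) (K := K) (B := 1) (k := k) le_rfl hp
  simpa using this

/-- all regions in the box -/
def SmE (K : ℝ) (k L : ℕ) : Set (Ed → ℝ) := ⋂ x ∈ box L, GE K k x

omit [IsProbabilityMeasure μ] in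
theorem measurableSet_SmE (K : ℝ) (k L : ℕ) : MeasurableSet (SmE K k L) :=
  Finset.measurableSet_biInter _ fun x _ => measurableSet_GE K k x

theorem prob_SmE {K : ℝ} (hp : μ {x | K < |x|} ≤ ENNReal.ofReal (1 / 16)) (k L : ℕ) :
    PP μ (SmE K k L)ᶜ ≤ ENNReal.ofReal ((2 * L + 1) ^ 2 * (8 * (1 / 4) ^ (k + 1))) := by
  have h1 : (SmE K k L)ᶜ = ⋃ x ∈ box L, (GE K k x)ᶜ := by
    unfold SmE
    simp only [Set.compl_iInter]
  rw [h1]
  refine (measure_biUnion_finset_le _ _).trans ?_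
  refine (Finset.sum_le_card_nsmul _ _ _ fun x _ => prob_GE hp k x).trans ?_
  rw [nsmul_eq_mul, E2.card_box_E2, ← ENNReal.ofReal_natCast, ← ENNReal.ofReal_mul (by positivity)]
  push_cast
  exact le_rfl

end

/-! ### light chains to infinity -/

/-- a ray of dual edges from the plaquette `0` to the east -/
def rayE : Ed → Bool := fun e => decide (e.2 = true ∧ 1 ≤ e.1.1 ∧ e.1.2 = 0)

theorem par_rayE : par rayE = dl 0 := by
  funext ⟨x, y⟩
  have h0 : edg (x, y) 0 = ((x + 1, y), true) := rfl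
  have h1 : edg (x, y) 1 = ((x, y + 1), false) := rfl
  have h2 : edg (x, y) 2 = ((x, y), true) := rfl
  have h3 : edg (x, y) 3 = ((x, y), false) := rfl
  unfold par
  rw [h0, h1, h2, h3]
  unfold rayE dl
  simp only [Bool.false_eq_true, false_and, decide_false, true_and]
  by_cases hy : y = 0
  · subst hy
    by_cases hx : x = 0
    · subst hx; decide
    · have h4 : ((x, (0 : ℤ)) : ℤ × ℤ) ≠ 0 := fun h => hx (congrArg Prod.fst h)
      by_cases h5 : 1 ≤ x
      · have h6 : 1 ≤ x + 1 := by omega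
        simp [h4, h5, h6]
      · have h6 : ¬ (1 ≤ x + 1) := by omega
        simp [h4, h5, h6]
  · have h4 : ((x, y) : ℤ × ℤ) ≠ 0 := fun h => hy (congrArg Prod.snd h)
    simp [h4, hy]

/-- near the origin the ray is light -/
def LR (K : ℝ) (j₀ : ℕ) : Set (Ed → ℝ) := ⋂ j ∈ Finset.Icc 1 j₀, {J | |J (((j : ℤ), 0), true)| ≤ K}

/-- far away the heavy clusters at the ray are small -/
def SR (K : ℝ) (j₀ : ℕ) : Set (Ed → ℝ) := ⋂ i : ℕ, GE K (j₀ + i) (((j₀ + i + 2 : ℕ) : ℤ), 0)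

theorem gd_of {K : ℝ} {j₀ : ℕ} {J : Ed → ℝ} (h1 : J ∈ LR K (j₀ + 1)) (h2 : J ∈ SR K j₀) :
    Gd K J 0 := by
  classical
  set Rp : Vx → Prop := fun v => ∃ i : ℕ, v ∈ RS K (j₀ + i) (((j₀ + i + 2 : ℕ) : ℤ), 0) J with hRp
  have hpos : ∀ v, Rp v → 1 ≤ v.1 := by
    rintro v ⟨i, hi⟩
    have h3 := RS_sub hi
    rw [E2.mem_box] at h3
    have h4 := h3.1.1
    simp only [Prod.fst_sub] at h4
    push_cast at h4
    omega
  have hcl : ∀ e, ¬ (Rp (pa e) ↔ Rp (pb e)) → |J e| ≤ K := by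
    intro e he
    by_cases ha : Rp (pa e)
    · have hb : ¬ Rp (pb e) := fun hb => he ⟨fun _ => hb, fun _ => ha⟩
      obtain ⟨i, hi⟩ := ha
      refine cl_RS (Set.mem_iInter.1 h2 i) e (mem_cc.2 fun h => hb ⟨i, h.1 hi⟩)
    · have hb : Rp (pb e) := by
        by_contra hb
        exact he ⟨fun h => absurd h ha, fun h => absurd h hb⟩
      obtain ⟨i, hi⟩ := hb
      refine cl_RS (Set.mem_iInter.1 h2 i) e (mem_cc.2 fun h => ha ⟨i, h.2 hi⟩)
  set s : Vx → Bool := fun v => decide (Rp v ∧ 1 ≤ v.2) with hs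
  refine ⟨bx rayE (cutS s), fun e he => ?_, ?_⟩
  · by_contra hK
    have hiff : Rp (pa e) ↔ Rp (pb e) := by
      by_contra h
      exact hK (hcl e h)
    obtain ⟨⟨x, y⟩, b⟩ := e
    by_cases ha : Rp (pa ((x, y), b))
    · have hb := hiff.1 ha
      have hx : 1 ≤ x := hpos _ ha
      cases b
      · have e1 : cutS s ((x, y), false) = false := by
          rw [Potx.cut_false, hs]
          have ha' : Rp (x, y) := ha
          have hb' : Rp (x + 1, y) := hb
          simp [ha', hb']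
        have e2 : rayE ((x, y), false) = false := by unfold rayE; simp
        unfold bx at he
        rw [e1, e2] at he
        exact absurd he (by decide)
      · have e1 : cutS s ((x, y), true) = decide (y = 0) := by
          rw [Potx.cut_true, hs]
          have ha' : Rp (x, y) := ha
          have hb' : Rp (x, y + 1) := hb
          simp only [ha', hb', true_and]
          by_cases hy : y = 0
          · subst hy; decide
          · by_cases h3 : 1 ≤ y
            · have h4 : 1 ≤ y + 1 := by omega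
              simp [hy, h3, h4]
            · have h4 : ¬ 1 ≤ y + 1 := by omega
              simp [hy, h3, h4]
        have e2 : rayE ((x, y), true) = decide (y = 0) := by
          unfold rayE
          simp [hx]
        unfold bx at he
        rw [e1, e2] at he
        simp at he
    · have hb : ¬ Rp (pb ((x, y), b)) := fun h => ha (hiff.2 h)
      have e1 : cutS s ((x, y), b) = false := by
        unfold cutS
        rw [hs]
        simp [ha, hb]
      unfold bx at he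
      rw [e1] at he
      simp only [Bool.xor_false] at he
      unfold rayE at he
      simp only [decide_eq_true_eq] at he
      obtain ⟨rfl, hx, rfl⟩ := he
      obtain ⟨j, rfl⟩ : ∃ j : ℕ, x = j := ⟨x.toNat, by omega⟩
      by_cases hj : j ≤ j₀ + 1
      · have h3 := Set.mem_iInter₂.1 h1 j (Finset.mem_Icc.2 ⟨by omega, hj⟩)
        exact hK h3
      · obtain ⟨i, rfl⟩ : ∃ i, j = j₀ + i + 2 := ⟨j - j₀ - 2, by omega⟩
        exact ha ⟨i, self_mem_RS⟩
  · rw [par_bx', par_rayE]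
    have h3 : par (cutS s) = fun _ => false := funext fun v => par_cutS s v
    rw [h3, vx_false]

theorem exists_tail (μ : Measure ℝ) [IsProbabilityMeasure μ] {η : ℝ} (hη : 0 < η) :
    ∃ K, 0 ≤ K ∧ μ {x | K < |x|} ≤ ENNReal.ofReal η := by
  have hanti : Antitone (fun m : ℕ => {x : ℝ | (m : ℝ) < |x|}) := by
    intro a b hab x hx
    exact lt_of_le_of_lt (show (a : ℝ) ≤ b by exact_mod_cast hab) hx
  have hm : ∀ m : ℕ, MeasurableSet {x : ℝ | (m : ℝ) < |x|} :=
    fun m => measurableSet_lt measurable_const measurable_id.abs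
  have hemp : ⋂ m : ℕ, {x : ℝ | (m : ℝ) < |x|} = ∅ := by
    rw [Set.eq_empty_iff_forall_notMem]
    intro x hx
    rw [Set.mem_iInter] at hx
    obtain ⟨m, hm⟩ := exists_nat_gt |x|
    exact absurd (hx m) (not_lt.2 hm.le)
  have hlim := tendsto_measure_iInter_atTop (μ := μ) (fun m => (hm m).nullMeasurableSet) hanti
    ⟨0, measure_ne_top _ _⟩
  rw [hemp, measure_empty] at hlim
  obtain ⟨m, hm1⟩ := (hlim.eventually_lt_const (ENNReal.ofReal_pos.2 hη)).exists
  exact ⟨m, Nat.cast_nonneg m, hm1.le⟩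

section

variable {μ : Measure ℝ} [IsProbabilityMeasure μ]

theorem prob_edge (e : Ed) (K : ℝ) : PP μ {J | K < |J e|} = μ {x | K < |x|} := by
  have h3 := measurePreserving_eval_infinitePi (fun _ : Ed => μ) e
  have h4 : MeasurableSet {x : ℝ | K < |x|} := measurableSet_lt measurable_const measurable_id.abs
  exact h3.measure_preimage h4.nullMeasurableSet

/-- **most plaquettes are good** -/
theorem prob_not_gd (μ : Measure ℝ) [IsProbabilityMeasure μ] {δ : ℝ} (hδ : 0 < δ) :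
    ∃ K : ℝ, 0 ≤ K ∧ μ {x | K < |x|} ≤ ENNReal.ofReal (1 / 16) ∧
      PP μ {J | ¬ Gd K J 0} ≤ ENNReal.ofReal δ := by
  obtain ⟨j₀, hj₀⟩ : ∃ j₀ : ℕ, 32 / 3 * ((1 : ℝ) / 4) ^ (j₀ + 1) ≤ δ / 2 := by
    have h1 := (tendsto_pow_atTop_nhds_zero_of_lt_one (by norm_num : (0 : ℝ) ≤ 1 / 4)
      (by norm_num)).comp (tendsto_add_atTop_nat 1)
    have h2 := h1.const_mul (32 / 3 : ℝ)
    rw [mul_zero] at h2
    obtain ⟨j₀, hj₀⟩ := (h2.eventually_le_const (half_pos hδ)).exists
    exact ⟨j₀, hj₀⟩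
  obtain ⟨K, hK0, hK⟩ := exists_tail μ (η := min (1 / 16) (δ / (2 * (j₀ + 1))))
    (lt_min (by norm_num) (by positivity))
  have hp1 : μ {x | K < |x|} ≤ ENNReal.ofReal (1 / 16) :=
    hK.trans (ENNReal.ofReal_le_ofReal (min_le_left _ _))
  have hp2 : μ {x | K < |x|} ≤ ENNReal.ofReal (δ / (2 * (j₀ + 1))) :=
    hK.trans (ENNReal.ofReal_le_ofReal (min_le_right _ _))
  refine ⟨K, hK0, hp1, ?_⟩
  have h1 : {J : Ed → ℝ | ¬ Gd K J 0} ⊆ (LR K (j₀ + 1))ᶜ ∪ (SR K j₀)ᶜ := by
    intro J hJ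
    by_contra h
    rw [Set.mem_union, not_or, Set.mem_compl_iff, Set.mem_compl_iff, not_not, not_not] at h
    exact hJ (gd_of h.1 h.2)
  have h2 : PP μ (LR K (j₀ + 1))ᶜ ≤ ENNReal.ofReal (δ / 2) := by
    have e1 : (LR K (j₀ + 1))ᶜ = ⋃ j ∈ Finset.Icc 1 (j₀ + 1),
        {J : Ed → ℝ | K < |J (((j : ℤ), 0), true)|} := by
      unfold LR
      simp only [Set.compl_iInter]
      congr 1; funext j; congr 1; funext _
      ext J
      simp
    rw [e1]
    refine (measure_biUnion_finset_le _ _).trans ?_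
    refine (Finset.sum_le_card_nsmul _ _ (ENNReal.ofReal (δ / (2 * (j₀ + 1)))) fun j _ => ?_).trans ?_
    · rw [prob_edge]; exact hp2
    · rw [nsmul_eq_mul, Nat.card_Icc, Nat.add_sub_cancel, ← ENNReal.ofReal_natCast,
        ← ENNReal.ofReal_mul (by positivity)]
      refine ENNReal.ofReal_le_ofReal (le_of_eq ?_)
      push_cast
      field_simp
  have h3 : PP μ (SR K j₀)ᶜ ≤ ENNReal.ofReal (δ / 2) := by
    have e1 : (SR K j₀)ᶜ = ⋃ i : ℕ, (GE K (j₀ + i) (((j₀ + i + 2 : ℕ) : ℤ), 0))ᶜ := by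
      unfold SR
      simp only [Set.compl_iInter]
    rw [e1]
    refine (measure_iUnion_le _).trans ?_
    have hsum : HasSum (fun i : ℕ => 8 * ((1 : ℝ) / 4) ^ (j₀ + i + 1))
        (8 * (1 / 4) ^ (j₀ + 1) * (1 - 1 / 4)⁻¹) := by
      have h4 := (hasSum_geometric_of_lt_one (by norm_num : (0 : ℝ) ≤ 1 / 4) (by norm_num)).mul_left
        (8 * ((1 : ℝ) / 4) ^ (j₀ + 1))
      refine h4.congr_fun ?_ |> fun h => h
      intro i
      rw [mul_assoc, ← pow_add]
      congr 2
      ring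
    calc ∑' i : ℕ, PP μ (GE K (j₀ + i) (((j₀ + i + 2 : ℕ) : ℤ), 0))ᶜ
        ≤ ∑' i : ℕ, ENNReal.ofReal (8 * (1 / 4) ^ (j₀ + i + 1)) :=
          ENNReal.tsum_le_tsum fun i => prob_GE hp1 _ _
      _ = ENNReal.ofReal (∑' i : ℕ, 8 * ((1 : ℝ) / 4) ^ (j₀ + i + 1)) :=
          (ENNReal.ofReal_tsum_of_nonneg (fun i => by positivity) hsum.summable).symm
      _ ≤ ENNReal.ofReal (δ / 2) := by
          refine ENNReal.ofReal_le_ofReal ?_
          rw [hsum.tsum_eq]
          refine le_trans (le_of_eq ?_) hj₀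
          norm_num
          ring
  refine (measure_mono h1).trans ((measure_union_le _ _).trans ?_)
  calc PP μ (LR K (j₀ + 1))ᶜ + PP μ (SR K j₀)ᶜ ≤ ENNReal.ofReal (δ / 2) + ENNReal.ofReal (δ / 2) :=
        add_le_add h2 h3
    _ = ENNReal.ofReal δ := by
        rw [← ENNReal.ofReal_add (by positivity) (by positivity)]
        congr 1
        ring

end

/-! ### measurability and translations -/

theorem gd_sh {K : ℝ} {J : Ed → ℝ} {u v : Vx} : Gd K (sh u J) v ↔ Gd K J (v + u) := by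
  have key : ∀ {J : Ed → ℝ} {u v : Vx}, Gd K J (v + u) → Gd K (sh u J) v := by
    rintro J u v ⟨X, h1, h2⟩
    refine ⟨sh u X, fun e he => h1 _ he, ?_⟩
    funext w
    rw [par_sh, h2]
    unfold dl
    simp
  refine ⟨fun h => ?_, key⟩
  have h1 : Gd K (sh (-u) (sh u J)) (v + u) := key (by rwa [add_neg_cancel_right])
  rwa [sh_sh, neg_add_cancel, sh_zero] at h1

theorem gd_congr {K : ℝ} {J J' : Ed → ℝ} (h : ∀ e, |J e| = |J' e|) {v : Vx} :
    Gd K J v ↔ Gd K J' v := by
  constructor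
  · rintro ⟨X, h1, h2⟩
    exact ⟨X, fun e he => by rw [← h e]; exact h1 e he, h2⟩
  · rintro ⟨X, h1, h2⟩
    exact ⟨X, fun e he => by rw [h e]; exact h1 e he, h2⟩

theorem cpar (v : Vx) : Continuous fun U : Ed → Bool => par U v := by
  have h1 : Continuous fun x : (Bool × Bool) × (Bool × Bool) =>
      xor (xor x.1.1 x.1.2) (xor x.2.1 x.2.2) := continuous_of_discreteTopology
  have h2 : Continuous fun U : Ed → Bool =>
      (((U (edg v 0), U (edg v 1)), (U (edg v 2), U (edg v 3))) : (Bool × Bool) × (Bool × Bool)) := by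
    fun_prop
  exact h1.comp h2

theorem measurableSet_Gd (K : ℝ) (v : Vx) : MeasurableSet {J : Ed → ℝ | Gd K J v} := by
  have h0 : {J : Ed → ℝ | Gd K J v} = Prod.fst ''
      {q : (Ed → ℝ) × (Ed → Bool) | (∀ e, q.2 e = true → |q.1 e| ≤ K) ∧ ∀ w, par q.2 w = dl v w} := by
    ext J
    simp only [Gd, Set.mem_ofPred_eq, Set.mem_image, Prod.exists, exists_and_right, exists_eq_right]
    constructor
    · rintro ⟨X, h1, h2⟩
      exact ⟨X, h1, fun w => by rw [h2]⟩
    · rintro ⟨X, h1, h2⟩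
      exact ⟨X, h1, funext h2⟩
  rw [h0]
  refine (isClosedMap_fst_of_compactSpace _ ?_).measurableSet
  have h1 : {q : (Ed → ℝ) × (Ed → Bool) | (∀ e, q.2 e = true → |q.1 e| ≤ K) ∧
      ∀ w, par q.2 w = dl v w} = (⋂ e, ({q : (Ed → ℝ) × (Ed → Bool) | q.2 e = false} ∪
        {q | |q.1 e| ≤ K})) ∩ ⋂ w, {q | par q.2 w = dl v w} := by
    ext q
    simp only [Set.mem_ofPred_eq, Set.mem_inter_iff, Set.mem_iInter, Set.mem_union]
    refine and_congr (forall_congr' fun e => ?_) Iff.rfl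
    cases q.2 e <;> simp
  rw [h1]
  refine IsClosed.inter (isClosed_iInter fun e => IsClosed.union ?_ ?_) (isClosed_iInter fun w => ?_)
  · exact isClosed_eq (by fun_prop) continuous_const
  · exact isClosed_le (by fun_prop) continuous_const
  · exact isClosed_eq ((cpar w).comp continuous_snd) continuous_const

end Pool.Agent.Helper59.TJ
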