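import Pool.Agent.Helper60.TJ.Basic
import Pool.Agent.Helper66.EAM.Defs

set_option autoImplicit false

/-! Potentials of even edge sets (after helper60, TJ-A1, and helper66, LK-Spin; repeated here under
other names, since this file is imported early). -/

namespace Pool.Agent.Helper59.TJ

open Pool.Agent.Helper60.TJ
open scoped symmDiff

/-- edges whose end points carry different spins -/
def cutS (s : Vx → Bool) : Ed → Bool := fun e => xor (s (pa e)) (s (pb e))

namespace Potx

theorem cut_false (s : Vx → Bool) (x y : ℤ) :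
    cutS s ((x, y), false) = xor (s (x, y)) (s (x + 1, y)) := rfl

theorem cut_true (s : Vx → Bool) (x y : ℤ) :
    cutS s ((x, y), true) = xor (s (x, y)) (s (x, y + 1)) := rfl

/-- primitives -/
def prP (f : ℤ → Bool) : ℕ → Bool
  | 0 => false
  | k + 1 => xor (prP f k) (f (k : ℤ))

def prQ (f : ℤ → Bool) : ℕ → Bool
  | 0 => false
  | k + 1 => xor (prQ f k) (f (-((k : ℤ) + 1)))

def prim (f : ℤ → Bool) : ℤ → Bool
  | Int.ofNat k => prP f k
  | Int.negSucc k => prQ f (k + 1)

theorem prim_zero (f : ℤ → Bool) : prim f 0 = false := rfl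

theorem prim_succ (f : ℤ → Bool) (n : ℤ) : prim f (n + 1) = xor (prim f n) (f n) := by
  rcases n with k | k
  · rfl
  · rcases k with _ | m
    · have h1 : (Int.negSucc 0 + 1 : ℤ) = 0 := rfl
      have h2 : (Int.negSucc 0 : ℤ) = -(((0 : ℕ) : ℤ) + 1) := rfl
      rw [h1, prim_zero]
      show false = xor (prQ f 1) (f (Int.negSucc 0))
      rw [h2]
      simp [prQ]
    · have h1 : (Int.negSucc (m + 1) + 1 : ℤ) = Int.negSucc m := rfl
      have h2 : (Int.negSucc (m + 1) : ℤ) = -(((m + 1 : ℕ) : ℤ) + 1) := rfl
      rw [h1]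
      show prQ f (m + 1) = xor (prQ f (m + 2)) (f (Int.negSucc (m + 1)))
      rw [h2]
      show prQ f (m + 1) = xor (xor (prQ f (m + 1)) (f (-(((m + 1 : ℕ) : ℤ) + 1))))
        (f (-(((m + 1 : ℕ) : ℤ) + 1)))
      simp

theorem const_of_succ {g : ℤ → Bool} (h : ∀ n, g (n + 1) = g n) (n : ℤ) : g n = g 0 := by
  induction n using Int.induction_on with
  | zero => rfl
  | succ i hi => rw [h, hi]
  | pred i hi => rw [← h, sub_add_cancel, hi]

end Potx

open Potx

theorem par_cutS (s : Vx → Bool) (v : Vx) : par (cutS s) v = false := by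
  obtain ⟨x, y⟩ := v
  have h0 : edg (x, y) 0 = ((x + 1, y), true) := rfl
  have h1 : edg (x, y) 1 = ((x, y + 1), false) := rfl
  have h2 : edg (x, y) 2 = ((x, y), true) := rfl
  have h3 : edg (x, y) 3 = ((x, y), false) := rfl
  unfold par
  rw [h0, h1, h2, h3, cut_true, cut_false, cut_true, cut_false]
  cases s (x + 1, y) <;> cases s (x + 1, y + 1) <;> cases s (x, y + 1) <;> cases s (x, y) <;> rfl

/-- an even edge set is the cut of a spin configuration (the plane is simply connected) -/
theorem exists_cutS {X : Ed → Bool} (h : ∀ v, par X v = false) : ∃ s, X = cutS s := by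
  set F : ℤ → Bool := prim (fun i => X ((i, 0), false)) with hF
  set G : ℤ → ℤ → Bool := fun x => prim (fun j => X ((x, j), true)) with hG
  refine ⟨fun v => xor (F v.1) (G v.1 v.2), ?_⟩
  have hv : ∀ x y, G x (y + 1) = xor (G x y) (X ((x, y), true)) := fun x y => prim_succ _ y
  have hh : ∀ x, F (x + 1) = xor (F x) (X ((x, 0), false)) := fun x => prim_succ _ x
  have h0 : ∀ x, G x 0 = false := fun x => prim_zero _
  have key : ∀ x y, xor (xor (X ((x, 0), false)) (X ((x, y), false)))
      (xor (G x y) (G (x + 1) y)) = false := by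
    intro x y
    have hc := const_of_succ (g := fun y => xor (xor (X ((x, 0), false)) (X ((x, y), false)))
      (xor (G x y) (G (x + 1) y))) (by
        intro n
        have hp := h (x, n)
        have e0 : edg (x, n) 0 = ((x + 1, n), true) := rfl
        have e1 : edg (x, n) 1 = ((x, n + 1), false) := rfl
        have e2 : edg (x, n) 2 = ((x, n), true) := rfl
        have e3 : edg (x, n) 3 = ((x, n), false) := rfl
        unfold par at hp
        rw [e0, e1, e2, e3] at hp
        simp only [hv]
        revert hp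
        generalize X ((x + 1, n), true) = b1
        generalize X ((x, n + 1), false) = b2
        generalize X ((x, n), true) = b3
        generalize X ((x, n), false) = b4
        generalize X ((x, 0), false) = b5
        generalize G x n = b6
        generalize G (x + 1) n = b7
        revert b1 b2 b3 b4 b5 b6 b7
        decide) y
    rw [hc]
    simp only [h0]
    simp
  funext ⟨⟨x, y⟩, c⟩
  cases c
  · rw [cut_false]
    have hk := key x y
    simp only [hh]
    revert hk
    generalize X ((x, 0), false) = b1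
    generalize X ((x, y), false) = b2
    generalize G x y = b3
    generalize G (x + 1) y = b4
    generalize F x = b5
    revert b1 b2 b3 b4 b5
    decide
  · rw [cut_true]
    simp only [hv]
    generalize X ((x, y), true) = b1
    generalize G x y = b3
    generalize F x = b5
    revert b1 b3 b5
    decide

/-! ### finite cuts -/

/-- edges at a vertex -/
def stE (v : Vx) : Finset Ed := {(v, false), (v, true), ((v.1 - 1, v.2), false), ((v.1, v.2 - 1), true)}

theorem mem_stE {v : Vx} {e : Ed} : e ∈ stE v ↔ pa e = v ∨ pb e = v := by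
  obtain ⟨⟨x, y⟩, b⟩ := e
  obtain ⟨p, q⟩ := v
  unfold stE pa pb
  cases b
  · simp only [Finset.mem_insert, Finset.mem_singleton, Prod.mk.injEq, Bool.false_eq_true,
      and_false, and_true, false_or, or_false, if_false]
    omega
  · simp only [Finset.mem_insert, Finset.mem_singleton, Prod.mk.injEq, Bool.true_eq_false,
      and_false, and_true, false_or, if_true]
    omega

theorem card_stE (v : Vx) : (stE v).card ≤ 4 := by
  unfold stE
  exact Finset.card_le_four

/-- edges which leave the finite set of vertices `F` -/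
def cc (F : Finset Vx) : Finset Ed := (F.biUnion stE).filter fun e => ¬ (pa e ∈ F ↔ pb e ∈ F)

theorem mem_cc {F : Finset Vx} {e : Ed} : e ∈ cc F ↔ ¬ (pa e ∈ F ↔ pb e ∈ F) := by
  unfold cc
  rw [Finset.mem_filter, Finset.mem_biUnion]
  refine ⟨fun h => h.2, fun h => ⟨?_, h⟩⟩
  by_cases h1 : pa e ∈ F
  · exact ⟨pa e, h1, mem_stE.2 (Or.inl rfl)⟩
  · have h2 : pb e ∈ F := by
      by_contra h2
      exact h ⟨fun h3 => absurd h3 h1, fun h3 => absurd h3 h2⟩
    exact ⟨pb e, h2, mem_stE.2 (Or.inr rfl)⟩

theorem card_cc (F : Finset Vx) : (cc F).card ≤ 4 * F.card := by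
  unfold cc
  refine (Finset.card_filter_le _ _).trans (Finset.card_biUnion_le.trans ?_)
  refine (Finset.sum_le_card_nsmul _ _ 4 fun v _ => card_stE v).trans ?_
  rw [smul_eq_mul, mul_comm]

theorem ind_cc (F : Finset Vx) : ind (cc F) = cutS (fun v => decide (v ∈ F)) := by
  funext e
  unfold ind cutS
  by_cases h1 : pa e ∈ F <;> by_cases h2 : pb e ∈ F <;> simp [mem_cc, h1, h2]

theorem isCyc_cc (F : Finset Vx) : IsCyc (cc F) := fun v => by
  rw [ind_cc]; exact par_cutS _ v

theorem cc_symmDiff (F F' : Finset Vx) : cc (F ∆ F') = cc F ∆ cc F' := by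
  ext e
  rw [mem_cc, Finset.mem_symmDiff, Finset.mem_symmDiff, Finset.mem_symmDiff, mem_cc, mem_cc]
  tauto

/-! ### the other conventions -/

open Pool.H66.EAM in
/-- vertices -/
def vV (x : V) : Vx := (x 0, x 1)

open Pool.H66.EAM in
/-- vertices, back -/
def Ve (v : Vx) : V := ![v.1, v.2]

open Pool.H66.EAM in
/-- edges -/
def cE : E ≃ Ed where
  toFun e := (vV e.1, decide (e.2 = 1))
  invFun e := (Ve e.1, if e.2 then 1 else 0)
  left_inv := by
    rintro ⟨x, i⟩
    refine Prod.ext ?_ ?_
    · funext j
      fin_cases j <;> rfl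
    · fin_cases i <;> rfl
  right_inv := by
    rintro ⟨⟨x, y⟩, b⟩
    cases b <;> rfl

theorem vV_Ve (v : Vx) : vV (Ve v) = v := rfl

theorem Ve_vV (x : Pool.H66.EAM.V) : Ve (vV x) = x := by
  funext j
  fin_cases j <;> rfl

theorem pa_cE (e : Pool.H66.EAM.E) : pa (cE e) = vV e.1 := rfl

theorem pb_cE (e : Pool.H66.EAM.E) :
    pb (cE e) = vV (e.1 + (Pi.single e.2 (1 : ℤ) : Fin 2 → ℤ)) := by
  obtain ⟨x, i⟩ := e
  fin_cases i
  · simp [pb, cE, vV]
  · simp [pb, cE, vV]

end Pool.Agent.Helper59.TJ
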