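import Pool.Agent.Helper60.TJ.E2
import Pool.Agent.Helper59.TJ.Pot

set_option autoImplicit false

/-! Recombination in an arbitrary finite region (deterministic). -/

namespace Pool.Agent.Helper59.TJ

open Pool.Agent.Helper60.TJ
open scoped symmDiff

/-- finite sets of vertices in `R` whose boundary inside `R` is contained in `W` -/
def GR (R : Finset Vx) (W : Ed → Bool) (F : Finset Vx) : Prop :=
  ∀ e, pa e ∈ R → pb e ∈ R → e ∈ cc F → W e = true

theorem GR.symmDiff {R : Finset Vx} {W : Ed → Bool} {F F' : Finset Vx} (h : GR R W F)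
    (h' : GR R W F') : GR R W (F ∆ F') := by
  intro e h1 h2 he
  rw [cc_symmDiff, Finset.mem_symmDiff] at he
  rcases he with he | he
  · exact h e h1 h2 he.1
  · exact h' e h1 h2 he.1

theorem ssub {F F' R : Finset Vx} (h : F ⊆ R) (h' : F' ⊆ R) : F ∆ F' ⊆ R := by
  intro e he
  rw [Finset.mem_symmDiff] at he
  rcases he with he | he
  · exact h he.1
  · exact h' he.1

open Classical in
theorem count_one {R : Finset Vx} {W A : Ed → Bool} (hW : ∀ v, par W v = false) (hA : Sat W A)
    {C : Finset Ed} (hC : ∀ e ∈ C, pa e ∈ R ∧ pb e ∈ R) :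
    (R.powerset.filter fun F => GR R W F).card ≤
      ((R.powerset.filter fun F => GR R W F).filter fun F => ∀ e ∈ C, ind (cc F) e = A e).card *
        C.powerset.card := by
  set G := R.powerset.filter fun F => GR R W F with hGdef
  have hG : ∀ {F : Finset Vx}, F ∈ G ↔ F ⊆ R ∧ GR R W F := by
    intro F; rw [hGdef, Finset.mem_filter, Finset.mem_powerset]
  obtain ⟨s, hs⟩ := exists_cutS (X := A) fun v => E2.Sat.par_false hA hW v
  set F0 : Finset Vx := R.filter fun v => s v = true with hF0
  have hF0e : ∀ e, pa e ∈ R → pb e ∈ R → (e ∈ cc F0 ↔ A e = true) := by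
    intro e h1 h2
    rw [mem_cc, hF0, Finset.mem_filter, Finset.mem_filter, hs]
    unfold cutS
    cases s (pa e) <;> cases s (pb e) <;> simp [h1, h2]
  have hF0G : F0 ∈ G := by
    refine hG.2 ⟨Finset.filter_subset _ _, ?_⟩
    intro e h1 h2 he
    exact hA.1 e ((hF0e e h1 h2).1 he)
  refine Finset.card_le_mul_card_image_of_maps_to (f := fun F => cc F ∩ C) ?_ _ ?_
  · intro F _
    exact Finset.mem_powerset.2 Finset.inter_subset_right
  · intro P _
    rcases Finset.eq_empty_or_nonempty (G.filter fun F => cc F ∩ C = P) with hP | ⟨X0, hX0⟩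
    · rw [hP]; simp
    · obtain ⟨hX0G, hX0P⟩ := Finset.mem_filter.1 hX0
      refine Finset.card_le_card_of_injOn (fun F => (F ∆ X0) ∆ F0) ?_ ?_
      · intro F hF
        obtain ⟨hFG, hFP⟩ := Finset.mem_filter.1 (Finset.mem_coe.1 hF)
        refine Finset.mem_coe.2 (Finset.mem_filter.2 ⟨?_, ?_⟩)
        · refine hG.2 ⟨ssub (ssub (hG.1 hFG).1 (hG.1 hX0G).1) (hG.1 hF0G).1, ?_⟩
          exact ((hG.1 hFG).2.symmDiff (hG.1 hX0G).2).symmDiff (hG.1 hF0G).2
        · intro e he
          have h1 : e ∈ cc F ↔ e ∈ cc X0 := E1.inter_iff hFP hX0P he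
          have h2 := hF0e e (hC e he).1 (hC e he).2
          have h3 : e ∈ cc ((F ∆ X0) ∆ F0) ↔ A e = true := by
            rw [cc_symmDiff, cc_symmDiff, Finset.mem_symmDiff, Finset.mem_symmDiff]
            tauto
          unfold ind
          cases h5 : A e
          · rw [h5] at h3
            simpa using h3
          · rw [h5] at h3
            simpa using h3
      · intro X _ Y _ hXY
        have h2 : X ∆ X0 = Y ∆ X0 := symmDiff_left_injective _ hXY
        exact symmDiff_left_injective X0 h2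

/-- the two energies of an edge set which is contained in the wall except for edges of `D` -/
theorem en_two {w : Ed → ℝ} (hw : ∀ e, 0 ≤ w e) {U U' : Ed → Bool} {X D : Finset Ed}
    (h : ∀ e ∈ X, e ∉ D → bx U U' e = true) : en w U X + en w U' X ≤ 2 * tw w D := by
  classical
  have h1 : en w U X + en w U' X = ∑ e ∈ X, w e * (sg (U e) + sg (U' e)) := by
    unfold en
    rw [← Finset.sum_add_distrib]
    exact Finset.sum_congr rfl fun e _ => by ring
  have h2 : ∀ e ∈ X, w e * (sg (U e) + sg (U' e)) ≤ if e ∈ D then 2 * w e else 0 := by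
    intro e he
    by_cases hD : e ∈ D
    · rw [if_pos hD]
      have := sg_le_one (U e)
      have := sg_le_one (U' e)
      nlinarith [hw e]
    · rw [if_neg hD]
      have h3 := h e he hD
      unfold bx at h3
      have h4 : sg (U e) + sg (U' e) = 0 := by
        revert h3
        cases U e <;> cases U' e <;> simp [sg]
      rw [h4, mul_zero]
  rw [h1]
  refine (Finset.sum_le_sum h2).trans ?_
  rw [← Finset.sum_filter]
  unfold tw
  rw [Finset.mul_sum]
  refine Finset.sum_le_sum_of_subset_of_nonneg ?_ fun e _ _ => by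
    have := hw e; positivity
  intro e he
  exact (Finset.mem_filter.1 he).2

/-- **recombination in a region**: the boundary of the region bounds the number of places where
an exchange of the two T-joins along the wall loses energy -/
theorem recombR {w : Ed → ℝ} (hw : ∀ e, 0 ≤ w e) {T : Vx → Bool} {U U' : Ed → Bool}
    (hU : U ∈ GS w T) (hU' : U' ∈ GS w T) {R : Finset Vx} {m : ℕ} {ε : ℝ} (hε : 0 ≤ ε)
    (Z : Finset Vx) (C : Vx → Finset Ed) (A : Vx → Ed → Bool)
    (hC : ∀ z ∈ Z, (∀ e ∈ C z, pa e ∈ R ∧ pb e ∈ R) ∧ (C z).card ≤ m ∧ IsCyc (C z))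
    (hdisj : ∀ z ∈ Z, ∀ z' ∈ Z, z ≠ z' → Disjoint (C z) (C z'))
    (hA : ∀ z ∈ Z, Sat (bx U U') (A z))
    (hneg : ∀ z ∈ Z, en w (bx U (A z)) (C z) ≤ -ε) :
    ε * Z.card ≤ 2 ^ (m + 1) * tw w (cc R) := by
  classical
  set W := bx U U' with hWdef
  have hW : ∀ v, par W v = false := fun v => par_wall hU hU' v
  let G : Finset (Finset Vx) := R.powerset.filter fun F => GR R W F
  have hG : ∀ {F : Finset Vx}, F ∈ G ↔ F ⊆ R ∧ GR R W F := by
    intro F; simp only [G, Finset.mem_filter, Finset.mem_powerset]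
  let mt : Vx → Finset Vx → Prop := fun z F => ∀ e ∈ C z, ind (cc F) e = A z e
  have hGpos : 0 < G.card := Finset.card_pos.2 ⟨∅, hG.2 ⟨by simp, by
    intro e _ _ he
    rw [mem_cc] at he
    simp at he⟩⟩
  -- energy bound for one `F`
  have henergy : ∀ F ∈ G, ε * ((Z.filter fun z => mt z F).card : ℝ) ≤ 2 * tw w (cc R) := by
    intro F hF
    obtain ⟨hFR, hFG⟩ := hG.1 hF
    set Zm := Z.filter fun z => mt z F with hZm
    have hZmZ : Zm ⊆ Z := Finset.filter_subset _ _
    set M := Zm.biUnion C with hM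
    have hMc : IsCyc M := E1.cyc_biUnion Zm (fun z hz => (hC z (hZmZ hz)).2.2)
      fun z hz z' hz' h => hdisj z (hZmZ hz) z' (hZmZ hz') h
    set X := cc F with hX
    have hXc : IsCyc X := isCyc_cc F
    have h1 := hU'.2 X hXc
    have h2 := hU.2 (X ∆ M) (hXc.symmDiff hMc)
    have h3 := en_symmDiff w U X M
    have h4 : en w U X + en w U' X ≤ 2 * tw w (cc R) := by
      refine en_two hw fun e he hne => ?_
      rw [mem_cc, not_not] at hne
      by_cases ha : pa e ∈ R
      · exact hFG e ha (hne.1 ha) he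
      · exfalso
        have hb : pb e ∉ R := fun h => ha (hne.2 h)
        rw [hX, mem_cc] at he
        have ha' : pa e ∉ F := fun h => ha (hFR h)
        have hb' : pb e ∉ F := fun h => hb (hFR h)
        tauto
    have h5 : en w (bx U (ind X)) M = ∑ z ∈ Zm, en w (bx U (A z)) (C z) := by
      unfold en
      rw [hM, Finset.sum_biUnion]
      · refine Finset.sum_congr rfl fun z hz => Finset.sum_congr rfl fun e he => ?_
        have := (Finset.mem_filter.1 hz).2 e he
        unfold bx
        rw [this]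
      · intro z hz z' hz' h
        exact hdisj z (hZmZ hz) z' (hZmZ hz') h
    have h6 : ∑ z ∈ Zm, en w (bx U (A z)) (C z) ≤ ∑ z ∈ Zm, (-ε) :=
      Finset.sum_le_sum fun z hz => hneg z (hZmZ hz)
    rw [Finset.sum_const, nsmul_eq_mul] at h6
    nlinarith
  -- counting for one z
  have hcount : ∀ z ∈ Z, (G.card : ℝ) ≤ 2 ^ m * ((G.filter fun F => mt z F).card : ℝ) := by
    intro z hz
    have h1 : G.card ≤ (G.filter fun F => mt z F).card * (C z).powerset.card :=
      count_one hW (hA z hz) (hC z hz).1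
    have h2 : (C z).powerset.card ≤ 2 ^ m := by
      rw [Finset.card_powerset]
      exact Nat.pow_le_pow_right (by norm_num) (hC z hz).2.1
    have h3 : G.card ≤ (G.filter fun F => mt z F).card * 2 ^ m :=
      h1.trans (Nat.mul_le_mul_left _ h2)
    have h4 : (G.card : ℝ) ≤ ((G.filter fun F => mt z F).card : ℝ) * 2 ^ m := by exact_mod_cast h3
    linarith
  -- double counting
  have hdc : ∑ F ∈ G, ((Z.filter fun z => mt z F).card : ℝ) =
      ∑ z ∈ Z, ((G.filter fun F => mt z F).card : ℝ) := by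
    have : ∑ F ∈ G, (Z.filter fun z => mt z F).card = ∑ z ∈ Z, (G.filter fun F => mt z F).card := by
      simp only [Finset.card_filter]
      exact Finset.sum_comm
    exact_mod_cast this
  have h1 : ε * (∑ F ∈ G, ((Z.filter fun z => mt z F).card : ℝ)) ≤ G.card * (2 * tw w (cc R)) := by
    rw [Finset.mul_sum, ← nsmul_eq_mul]
    exact Finset.sum_le_card_nsmul _ _ _ henergy
  have h2 : (Z.card : ℝ) * G.card ≤ 2 ^ m * ∑ z ∈ Z, ((G.filter fun F => mt z F).card : ℝ) := by
    rw [Finset.mul_sum, ← nsmul_eq_mul]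
    exact Finset.card_nsmul_le_sum _ _ _ hcount
  rw [hdc] at h1
  have hGp : (0 : ℝ) < G.card := by exact_mod_cast hGpos
  have h3 : ε * ((Z.card : ℝ) * G.card) ≤ 2 ^ m * (G.card * (2 * tw w (cc R))) := by
    calc ε * ((Z.card : ℝ) * G.card) ≤ ε * (2 ^ m * ∑ z ∈ Z, ((G.filter fun F => mt z F).card : ℝ)) :=
          mul_le_mul_of_nonneg_left h2 hε
      _ = 2 ^ m * (ε * ∑ z ∈ Z, ((G.filter fun F => mt z F).card : ℝ)) := by ring
      _ ≤ _ := mul_le_mul_of_nonneg_left h1 (by positivity)
  have h4 : (ε * Z.card) * G.card ≤ (2 ^ (m + 1) * tw w (cc R)) * G.card := by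
    rw [pow_succ]; linarith
  exact le_of_mul_le_mul_right h4 hGp

end Pool.Agent.Helper59.TJ
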